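import Pool.Agent.H66Z.TP.Final

set_option autoImplicit false

open Cardinal Ordinal Pool.Agent.H66Z.TP

universe u

/-- The cardinal `ℶ_{ω₂}` has the monochromatic path property for countably many colours, and it is
the least strong limit cardinal with this property. -/
theorem Pool.Agent.Results.MP_ebc4cb_lc.ABethOmegaTwo.result :
    IsLeast {κ : Cardinal.{u} | κ.IsStrongLimit ∧ InP κ} (ℶ_ (ω_ 2)) :=
  isLeast_beth
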